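import Pool.Agent.U26.SG.Stm6
import Pool.Agent.N40.BRSTAT

/-!
Project SG, package STL: a law is stationary if its characteristic functional is invariant (the
step of the library file BRSTAT, stated on its own).
-/

set_option autoImplicit false

open MeasureTheory Filter Topology Complex

namespace Pool.Agent.U606.SG.STL

open Pool.Agent.U26.SG

theorem t_STL : S_STL := fun μ hμ H =>
  Pool.Agent.N40.BRSTAT.stat_of_char μ hμ fun x k w t => H k w t x

end Pool.Agent.U606.SG.STL
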